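import Pool.Agent.W316.Iitaka2

/-! Viehweg's subadditivity for isotrivial fibrations over quotients of products of curves. -/

set_option autoImplicit false
set_option linter.overlappingInstances false

universe u

open FF IntermediateField Pool.Agent.W619.PQ Pool.Agent.W619.PL Pool.Agent.W619.TW
  Pool.Agent.W619.X Pool.Agent.W619.Y

namespace Pool.Agent.Results.MP_5c318e_ag.IsotrivialOverCurveQuotients

/-- Let `F` be a projective variety of dimension `d` with function field `M`, `C i` (`i < n`) curves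
with function fields `C i`, `P` their product, `L` the function field of `F × P` (`hsup`), `G` a
finite group of automorphisms of `L` which permutes the curves through `σ`. Let `X` and `Y` be
projective manifolds birational to `(F × P) / G` (function field `fixedField G`) and to `P / G`
(function field `(⨆ i, C i) ⊓ fixedField G`), and `f : X → Y` the fibration. Assume `MixedPos`, for
instance that the fixed locus of each `g ≠ 1` in `G` on the product of the curves is empty or of
codimension at least `7`. Let `h` be the number of curves which are not elliptic.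

(1) The function field of `F × P` is the compositum of those of `X` and `P`, so the fibre product of
`X` and `P` over `Y` is birational to `F × P`: the fibration is isotrivial with fibre `F`.
(2) If the curves are irrational, then `κ X ≥ κ F + h`, and `ν X ≤ ν F + h`. (3) If `κ Y ≥ b`, then
the curves are irrational and `b ≤ h`. (4) `κ X ≥ κ F + κ Y`. -/
theorem result {L : Type u} [Field L] [Algebra ℂ L] (d n : ℕ)
    (hn : Algebra.trdeg ℂ L = (d + n : ℕ))
    (M : IntermediateField ℂ L) [Algebra.EssFiniteType ℂ M] (hM : Algebra.trdeg ℂ M = d)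
    (C : Fin n → IntermediateField ℂ L) (hC : ∀ i, IsFF ℂ (C i))
    (hsup : M ⊔ (⨆ i, C i) = ⊤)
    (G : Subgroup (L ≃ₐ[ℂ] L)) [Finite G] (σ : G →* Equiv.Perm (Fin n))
    (hσ : ∀ (g : G) i, ∀ z ∈ C i, (g : L ≃ₐ[ℂ] L) z ∈ C (σ g i))
    (h : MixedPos G σ C) :
    fixedField G ⊔ (⨆ i, C i) = M ⊔ (⨆ i, C i) ∧
    ((∀ i, ¬ ∃ t : C i, ℂ⟮t⟯ = ⊤) → ∀ a,
      (KodTr ℂ M d a →
        KodTr ℂ (fixedField G) (d + n) (a + {i | ¬ IsElliptic (C i)}.ncard)) ∧
      (NumLe ℂ M d (fun _ => False) a →
        NumLe ℂ (fixedField G) (d + n) (fun _ => False)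
          (a + {i | ¬ IsElliptic (C i)}.ncard))) ∧
    (∀ b, KodTr ℂ ↥((⨆ i, C i) ⊓ fixedField G) n b →
      (∀ i, ¬ ∃ t : C i, ℂ⟮t⟯ = ⊤) ∧ b ≤ {i | ¬ IsElliptic (C i)}.ncard) ∧
    (∀ a b, KodTr ℂ M d a → KodTr ℂ ↥((⨆ i, C i) ⊓ fixedField G) n b →
      KodTr ℂ (fixedField G) (d + n) (a + b)) := by
  have halg := alg_of_top M C hsup
  obtain ⟨h1, h2, h3⟩ := Pool.Agent.W316.Iit.iitaka d n hn M hM C halg G σ hσ h
  obtain ⟨h4, h5⟩ := abM d n hn M hM C halg G σ hσ h
  exact ⟨by rw [h1, hsup], fun hirr a => ⟨fun ha => (h4 hirr a ha).1,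
    fun ha => (h5 hsup).1 hirr a ha⟩, h2, h3⟩

end Pool.Agent.Results.MP_5c318e_ag.IsotrivialOverCurveQuotients
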